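import Pool.Agent.H37.CTT.Stmts

set_option autoImplicit false

namespace Pool.CND

open Finset Polynomial Matrix

theorem sc0_fun {F : Type} [Field F] (u v : Fin 4 → F) (h : LinearIndependent F ![u, v]) (a b : F) :
    ∃ y : Fin 4 → F, u ⬝ᵥ y = a ∧ v ⬝ᵥ y = b := by
  have hinj : Function.Injective (Fintype.linearCombination F ![u, v]) :=
    linearIndependent_iff_injective_fintypeLinearCombination.mp h
  obtain ⟨g, hg⟩ := LinearMap.exists_leftInverse_of_injective (Fintype.linearCombination F ![u, v])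
    (LinearMap.ker_eq_bot.mpr hinj)
  have hgu : g u = ![1, 0] := by
    have h1 := LinearMap.congr_fun hg ![1, 0]
    simpa [Fintype.linearCombination_apply, Fin.sum_univ_two] using h1
  have hgv : g v = ![0, 1] := by
    have h1 := LinearMap.congr_fun hg ![0, 1]
    simpa [Fintype.linearCombination_apply, Fin.sum_univ_two] using h1
  let l : (Fin 4 → F) →ₗ[F] F := a • ((LinearMap.proj 0).comp g) + b • ((LinearMap.proj 1).comp g)
  have hl : ∀ x : Fin 4 → F, x ⬝ᵥ (fun i => l (fun j => if i = j then 1 else 0)) = l x := by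
    intro x
    rw [LinearMap.pi_apply_eq_sum_univ l x]
    simp only [dotProduct, smul_eq_mul]
  have hlx : ∀ x, l x = a * g x 0 + b * g x 1 := fun x => by simp [l]
  refine ⟨fun i => l (fun j => if i = j then 1 else 0), ?_, ?_⟩
  · rw [hl, hlx, hgu]
    simp
  · rw [hl, hlx, hgv]
    simp

theorem sc0_form {F : Type} [Field F] (M : Matrix (Fin 4) (Fin 4) F) (hM : M.det ≠ 0)
    (u v : Fin 4 → F) (h : LinearIndependent F ![u, v]) (a b : F) :
    ∃ x : Fin 4 → F, u ⬝ᵥ (M *ᵥ x) = a ∧ v ⬝ᵥ (M *ᵥ x) = b := by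
  obtain ⟨y, h1, h2⟩ := sc0_fun u v h a b
  have hu : IsUnit M.det := isUnit_iff_ne_zero.mpr hM
  refine ⟨M⁻¹ *ᵥ y, ?_, ?_⟩
  · rw [Matrix.mulVec_mulVec, Matrix.mul_nonsing_inv M hu, Matrix.one_mulVec, h1]
  · rw [Matrix.mulVec_mulVec, Matrix.mul_nonsing_inv M hu, Matrix.one_mulVec, h2]

theorem sc0_anti {F : Type} [Field F] (M : Matrix (Fin 4) (Fin 4) F) (hT : Mᵀ = -M)
    (x y : Fin 4 → F) : x ⬝ᵥ (M *ᵥ y) = -(y ⬝ᵥ (M *ᵥ x)) := by
  have h1 : x ⬝ᵥ (M *ᵥ y) = y ⬝ᵥ (Mᵀ *ᵥ x) := by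
    rw [Matrix.dotProduct_mulVec, ← Matrix.mulVec_transpose, dotProduct_comm]
  rw [h1, hT, Matrix.neg_mulVec, dotProduct_neg]

theorem sc0_alt {F : Type} [Field F] (M : Matrix (Fin 4) (Fin 4) F) (hT : Mᵀ = -M)
    (h0 : ∀ i, M i i = 0) (x : Fin 4 → F) : x ⬝ᵥ (M *ᵥ x) = 0 := by
  have hs : ∀ i j, M j i = - M i j := fun i j => by
    have := congrFun (congrFun hT i) j
    simpa using this
  simp only [dotProduct, Matrix.mulVec, Fin.sum_univ_four]
  rw [h0 0, h0 1, h0 2, h0 3, hs 0 1, hs 0 2, hs 0 3, hs 1 2, hs 1 3, hs 2 3]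
  ring

theorem sc0_two {F : Type} [Field F] (M : Matrix (Fin 4) (Fin 4) F) (hM : M.det ≠ 0)
    (hT : Mᵀ = -M) (h0 : ∀ i, M i i = 0) (u v : Fin 4 → F) (h : LinearIndependent F ![u, v])
    (huv : u ⬝ᵥ (M *ᵥ v) = 0) :
    ∃ h : Matrix (Fin 4) (Fin 4) F, h.det ≠ 0 ∧ hᵀ * M * h = J4s F ∧
      (∀ i, h i 0 = u i) ∧ ∀ i, h i 1 = v i := by
  obtain ⟨w, w1, w2⟩ := sc0_form M hM u v h 0 1
  obtain ⟨z', z1', z2'⟩ := sc0_form M hM u v h 1 0
  obtain ⟨z, hz⟩ : ∃ z, z = z' + (w ⬝ᵥ (M *ᵥ z')) • v := ⟨_, rfl⟩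
  have hwv : w ⬝ᵥ (M *ᵥ v) = -1 := by rw [sc0_anti M hT, w2]
  have z1 : u ⬝ᵥ (M *ᵥ z) = 1 := by
    rw [hz, Matrix.mulVec_add, dotProduct_add, Matrix.mulVec_smul, dotProduct_smul, z1', huv]
    simp
  have z2 : v ⬝ᵥ (M *ᵥ z) = 0 := by
    rw [hz, Matrix.mulVec_add, dotProduct_add, Matrix.mulVec_smul, dotProduct_smul, z2',
      sc0_alt M hT h0]
    simp
  have z3 : w ⬝ᵥ (M *ᵥ z) = 0 := by
    rw [hz, Matrix.mulVec_add, dotProduct_add, Matrix.mulVec_smul, dotProduct_smul, hwv, smul_eq_mul]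
    ring
  have hh : ∀ i j, ((Matrix.of fun i j => (![u, v, w, z] j) i)ᵀ * M *
      (Matrix.of fun i j => (![u, v, w, z] j) i)) i j =
      (![u, v, w, z] i) ⬝ᵥ (M *ᵥ (![u, v, w, z] j)) := by
    intro i j
    rw [Matrix.mul_assoc, Matrix.mul_apply_eq_vecMul, Matrix.vecMul, dotProduct]
    simp only [dotProduct, Matrix.mul_apply, Matrix.mulVec, Matrix.transpose_apply, Matrix.of_apply]
  have key : (Matrix.of fun i j => (![u, v, w, z] j) i)ᵀ * M *
      (Matrix.of fun i j => (![u, v, w, z] j) i) = J4s F := by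
    ext i j
    rw [hh]
    have e1 := sc0_alt M hT h0
    have e2 := sc0_anti M hT
    fin_cases i <;> fin_cases j <;>
      simp [J4s, e1, huv, w1, w2, z1, z2, z3, e2 v u, e2 w u, e2 w v, e2 z u, e2 z v, e2 z w]
  refine ⟨Matrix.of fun i j => (![u, v, w, z] j) i, ?_, key, fun i => rfl, fun i => rfl⟩
  intro hd
  have hdet := congrArg Matrix.det key
  rw [Matrix.det_mul, Matrix.det_mul, hd, mul_zero] at hdet
  have hJ : (J4s F).det = 1 := by
    rw [Matrix.det_succ_row_zero]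
    simp only [Fin.sum_univ_four, Matrix.det_fin_three, Matrix.submatrix_apply]
    simp [J4s, Fin.succAbove]
    norm_num
  rw [hJ] at hdet
  exact zero_ne_one hdet

theorem sc0_thm : S_SC0 := by
  intro F _ M hM hT h0
  refine ⟨?_, fun u v h huv => sc0_two M hM hT h0 u v h huv⟩
  intro u hu
  let f : (Fin 4 → F) →ₗ[F] F :=
    { toFun := fun x => u ⬝ᵥ (M *ᵥ x)
      map_add' := fun x y => by rw [Matrix.mulVec_add, dotProduct_add]
      map_smul' := fun a x => by rw [Matrix.mulVec_smul, dotProduct_smul]; rfl }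
  have hnot : ¬ LinearMap.ker f ≤ Submodule.span F {u} := by
    intro hle
    have h1 := Submodule.finrank_mono hle
    have h2 : Module.finrank F (Submodule.span F {u}) ≤ 1 := (finrank_span_singleton hu).le
    have h3 := LinearMap.finrank_range_add_finrank_ker f
    have h4 : Module.finrank F (LinearMap.range f) ≤ 1 := by
      calc Module.finrank F (LinearMap.range f) ≤ Module.finrank F F := Submodule.finrank_le _
        _ = 1 := Module.finrank_self F
    have h5 : Module.finrank F (Fin 4 → F) = 4 := by simp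
    omega
  obtain ⟨v, hv1, hv2⟩ := SetLike.not_le_iff_exists.mp hnot
  have hlin : LinearIndependent F ![u, v] := by
    rw [LinearIndependent.pair_iff' hu]
    intro a ha
    apply hv2
    rw [← ha]
    exact Submodule.smul_mem _ _ (Submodule.mem_span_singleton_self u)
  have huv : u ⬝ᵥ (M *ᵥ v) = 0 := hv1
  obtain ⟨h, h1, h2, h3, _⟩ := sc0_two M hM hT h0 u v hlin huv
  exact ⟨h, h1, h2, h3⟩

end Pool.CND
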